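import Pool.Agent.H18.UC.Step

/-! The theorem for mixed radix expansions. -/

set_option autoImplicit false

open Finset

namespace Pool.Agent.H18.UC

/-- Partial products. -/
def D (q : ℕ → ℕ) (n : ℕ) : ℕ := ∏ i ∈ range n, q i

lemma D_succ (q : ℕ → ℕ) (n : ℕ) : D q (n + 1) = D q n * q n := Finset.prod_range_succ _ _

lemma D_pos (q : ℕ → ℕ) (hq : ∀ i, 1 ≤ q i) (n : ℕ) : 0 < D q n :=
  Finset.prod_pos fun i _ => hq i

/-- Digit sums are smaller than the next partial product. -/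
lemma digit_sum_lt (q : ℕ → ℕ) (hq : ∀ i, 1 ≤ q i) (n : ℕ) :
    ∀ (I : Finset ℕ) (c : ℕ → ℕ), I ⊆ range n → (∀ i ∈ I, c i < q i) →
      ∑ i ∈ I, c i * D q i < D q n := by
  induction n with
  | zero =>
    intro I c hI _
    have : I = ∅ := by
      rw [Finset.range_zero] at hI
      exact Finset.subset_empty.1 hI
    rw [this, Finset.sum_empty]
    exact D_pos q hq 0
  | succ n ih =>
    intro I c hI hc
    have h1 : ∑ i ∈ I.erase n, c i * D q i < D q n := by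
      refine ih _ c ?_ fun i hi => hc i (Finset.mem_of_mem_erase hi)
      intro i hi
      have h2 := Finset.mem_range.1 (hI (Finset.mem_of_mem_erase hi))
      have h3 := Finset.ne_of_mem_erase hi
      rw [Finset.mem_range]; omega
    by_cases hn : n ∈ I
    · rw [← Finset.add_sum_erase I _ hn, D_succ]
      have h4 := hc n hn
      have h5 : (c n + 1) * D q n ≤ q n * D q n := Nat.mul_le_mul_right _ h4
      nlinarith
    · rw [Finset.erase_eq_of_notMem hn] at h1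
      rw [D_succ]
      exact h1.trans_le (Nat.le_mul_of_pos_right _ (hq n))

theorem chain (q : ℕ → ℕ) (hq : ∀ i, 1 ≤ q i) (n : ℕ) :
    ∀ A₁ A₂ A₃ A₄ : Finset (ZMod (D q n)),
      A₁.Nonempty → A₂.Nonempty → A₃.Nonempty → A₄.Nonempty →
      ∃ I : Finset ℕ, I ⊆ range n ∧
        (A₁.card : ℝ) * A₂.card * (A₃.card * A₄.card) ≤ 0.0874 ^ I.card * (D q n : ℝ) ^ 4 ∧
        ∀ x : ZMod (D q n), ∃ a₁ ∈ A₁, ∃ a₂ ∈ A₂, ∃ a₃ ∈ A₃, ∃ a₄ ∈ A₄, ∃ c : ℕ → ℕ,
          (∀ i ∈ I, c i < q i) ∧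
          x = a₁ + a₂ - a₃ - a₄ + ((∑ i ∈ I, c i * D q i : ℕ) : ZMod (D q n)) := by
  induction n with
  | zero =>
    intro A₁ A₂ A₃ A₄ h₁ h₂ h₃ h₄
    have hD : D q 0 = 1 := Finset.prod_range_zero _
    have : Subsingleton (ZMod (D q 0)) := by rw [hD]; infer_instance
    have hc : ∀ A : Finset (ZMod (D q 0)), A.Nonempty → (A.card : ℝ) = 1 := by
      intro A hA
      have h1 : A.card ≤ 1 := Finset.card_le_one_iff_subsingleton_coe.2
        ⟨fun a b => Subtype.ext (Subsingleton.elim _ _)⟩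
      have h2 := hA.card_pos
      have : A.card = 1 := by omega
      rw [this]; norm_num
    obtain ⟨a₁, ha₁⟩ := h₁
    obtain ⟨a₂, ha₂⟩ := h₂
    obtain ⟨a₃, ha₃⟩ := h₃
    obtain ⟨a₄, ha₄⟩ := h₄
    refine ⟨∅, Finset.empty_subset _, ?_, ?_⟩
    · rw [hc A₁ ⟨a₁, ha₁⟩, hc A₂ ⟨a₂, ha₂⟩, hc A₃ ⟨a₃, ha₃⟩, hc A₄ ⟨a₄, ha₄⟩, hD]
      norm_num
    · intro x
      exact ⟨a₁, ha₁, a₂, ha₂, a₃, ha₃, a₄, ha₄, fun _ => 0, by simp, Subsingleton.elim _ _⟩
  | succ n ih =>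
    intro A₁ A₂ A₃ A₄ h₁ h₂ h₃ h₄
    have : NeZero (D q n) := ⟨(D_pos q hq n).ne'⟩
    have : NeZero (D q (n + 1)) := ⟨(D_pos q hq (n + 1)).ne'⟩
    have hdvd : D q n ∣ D q (n + 1) := by rw [D_succ]; exact Dvd.intro _ rfl
    set π : ZMod (D q (n + 1)) →+ ZMod (D q n) :=
      (ZMod.castHom hdvd (ZMod (D q n))).toAddMonoidHom with hπdef
    have hπs : Function.Surjective π := ZMod.castHom_surjective hdvd
    have hπn : ∀ m : ℕ, π (m : ZMod (D q (n + 1))) = (m : ZMod (D q n)) := by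
      intro m
      rw [hπdef]
      exact map_natCast (ZMod.castHom hdvd (ZMod (D q n))) m
    have hfq : fq π = q n := by
      have h1 := card_eq π hπs
      have h2 : Fintype.card (ZMod (D q (n + 1))) = D q (n + 1) := ZMod.card _
      have h3 : Fintype.card (ZMod (D q n)) = D q n := ZMod.card _
      rw [h2, h3] at h1
      have h4 : D q (n + 1) = q n * D q n := by rw [D_succ, mul_comm]
      have h5 : q n * D q n = fq π * D q n := h4.symm.trans h1
      exact (Nat.eq_of_mul_eq_mul_right (D_pos q hq n) h5).symm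
    obtain ⟨B₁, B₂, B₃, B₄, k₁, k₂, k₃, k₄, hcase⟩ := step π hπs A₁ A₂ A₃ A₄ h₁ h₂ h₃ h₄
    obtain ⟨I, hI, hIc, hIx⟩ := ih B₁ B₂ B₃ B₄ k₁ k₂ k₃ k₄
    have hDD : (D q (n + 1) : ℝ) ^ 4 = (D q n : ℝ) ^ 4 * (q n : ℝ) ^ 4 := by
      rw [D_succ]; push_cast; ring
    rcases hcase with ⟨hle, hx⟩ | ⟨hle, hx⟩
    · refine ⟨I, hI.trans (Finset.range_subset_range.2 (Nat.le_succ n)), ?_, ?_⟩
      · rw [hfq] at hle
        calc (A₁.card : ℝ) * A₂.card * (A₃.card * A₄.card)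
            ≤ ((B₁.card : ℝ) * B₂.card * (B₃.card * B₄.card)) * (q n : ℝ) ^ 4 := hle
          _ ≤ (0.0874 ^ I.card * (D q n : ℝ) ^ 4) * (q n : ℝ) ^ 4 := by gcongr
          _ = 0.0874 ^ I.card * (D q (n + 1) : ℝ) ^ 4 := by rw [hDD]; ring
      · intro x
        obtain ⟨b₁, hb₁, b₂, hb₂, b₃, hb₃, b₄, hb₄, c, hc, hxc⟩ := hIx (π x)
        obtain ⟨a₁, ha₁, a₂, ha₂, a₃, ha₃, a₄, ha₄, e⟩ :=
          hx (x - ((∑ i ∈ I, c i * D q i : ℕ) : ZMod (D q (n + 1)))) b₁ hb₁ b₂ hb₂ b₃ hb₃ b₄ hb₄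
            (by rw [map_sub, hπn, hxc]; abel)
        exact ⟨a₁, ha₁, a₂, ha₂, a₃, ha₃, a₄, ha₄, c, hc, by rw [← e]; abel⟩
    · have hnI : n ∉ I := fun h => by
        have := Finset.mem_range.1 (hI h)
        omega
      refine ⟨insert n I, ?_, ?_, ?_⟩
      · intro i hi
        rw [Finset.mem_insert] at hi
        rw [Finset.mem_range]
        rcases hi with h | h
        · omega
        · have := Finset.mem_range.1 (hI h)
          omega
      · rw [hfq] at hle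
        rw [Finset.card_insert_of_notMem hnI, pow_succ]
        calc (A₁.card : ℝ) * A₂.card * (A₃.card * A₄.card)
            ≤ 0.0874 * (((B₁.card : ℝ) * B₂.card * (B₃.card * B₄.card)) * (q n : ℝ) ^ 4) := hle
          _ ≤ 0.0874 * ((0.0874 ^ I.card * (D q n : ℝ) ^ 4) * (q n : ℝ) ^ 4) := by gcongr
          _ = 0.0874 ^ I.card * 0.0874 * (D q (n + 1) : ℝ) ^ 4 := by rw [hDD]; ring
      · intro x
        obtain ⟨b₁, hb₁, b₂, hb₂, b₃, hb₃, b₄, hb₄, c, hc, hxc⟩ := hIx (π x)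
        obtain ⟨a₁, ha₁, a₂, ha₂, a₃, ha₃, a₄, ha₄, e⟩ := hx b₁ hb₁ b₂ hb₂ b₃ hb₃ b₄ hb₄
        set s : ZMod (D q (n + 1)) := ((∑ i ∈ I, c i * D q i : ℕ) : ZMod (D q (n + 1))) with hs
        set z : ZMod (D q (n + 1)) := x - s - (a₁ + a₂ - a₃ - a₄) with hz
        have hπz : π z = 0 := by
          rw [hz, map_sub, map_sub, e, hs, hπn, hxc]; abel
        have hzv : ((z.val : ℕ) : ZMod (D q n)) = 0 := by
          rw [← hπn, ZMod.natCast_zmod_val]; exact hπz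
        rw [ZMod.natCast_eq_zero_iff] at hzv
        obtain ⟨k, hk⟩ := hzv
        have hkq : k < q n := by
          have h1 := ZMod.val_lt z
          rw [hk, D_succ] at h1
          exact Nat.lt_of_mul_lt_mul_left h1
        refine ⟨a₁, ha₁, a₂, ha₂, a₃, ha₃, a₄, ha₄, Function.update c n k, ?_, ?_⟩
        · intro i hi
          rw [Finset.mem_insert] at hi
          rcases hi with h | h
          · rw [h, Function.update_self]; exact hkq
          · have hin : i ≠ n := fun h' => hnI (h' ▸ h)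
            rw [Function.update_of_ne hin]; exact hc i h
        · rw [Finset.sum_insert hnI, Function.update_self]
          have h2 : ∑ i ∈ I, Function.update c n k i * D q i = ∑ i ∈ I, c i * D q i := by
            refine Finset.sum_congr rfl fun i hi => ?_
            have hin : i ≠ n := fun h' => hnI (h' ▸ hi)
            rw [Function.update_of_ne hin]
          rw [h2, Nat.cast_add, ← hs]
          have h3 : ((k * D q n : ℕ) : ZMod (D q (n + 1))) = z := by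
            rw [mul_comm, ← hk, ZMod.natCast_zmod_val]
          rw [h3, hz]; abel

/-- Transfer to an arbitrary modulus. -/
theorem transfer (N : ℕ) [NeZero N] (q : ℕ → ℕ) (hq : ∀ i, 1 ≤ q i) (n : ℕ)
    (hn : 5 * N ≤ D q n) (A₁ A₂ A₃ A₄ : Finset (ZMod N))
    (h₁ : A₁.Nonempty) (h₂ : A₂.Nonempty) (h₃ : A₃.Nonempty) (h₄ : A₄.Nonempty) :
    ∃ I : Finset ℕ, I ⊆ range n ∧
      (A₁.card : ℝ) * A₂.card * (A₃.card * A₄.card) ≤ 0.0874 ^ I.card * (D q n : ℝ) ^ 4 ∧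
      ∀ x : ZMod N, ∃ a₁ ∈ A₁, ∃ a₂ ∈ A₂, ∃ a₃ ∈ A₃, ∃ a₄ ∈ A₄, ∃ c : ℕ → ℕ,
        (∀ i ∈ I, c i < q i) ∧
        x = a₁ + a₂ - a₃ - a₄ + ((∑ i ∈ I, c i * D q i : ℕ) : ZMod N) := by
  have hN : 0 < N := Nat.pos_of_ne_zero (NeZero.ne N)
  have : NeZero (D q n) := ⟨(D_pos q hq n).ne'⟩
  set ι : ZMod N → ZMod (D q n) := fun a => ((a.val : ℕ) : ZMod (D q n)) with hι
  have hinj : Function.Injective ι := by
    intro a b hab
    have h1 : ((a.val : ℕ) : ZMod (D q n)) = ((b.val : ℕ) : ZMod (D q n)) := hab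
    rw [ZMod.natCast_eq_natCast_iff'] at h1
    have ha := ZMod.val_lt a
    have hb := ZMod.val_lt b
    rw [Nat.mod_eq_of_lt (by omega), Nat.mod_eq_of_lt (by omega)] at h1
    exact ZMod.val_injective N h1
  obtain ⟨I, hI, hIc, hIx⟩ := chain q hq n (A₁.image ι) (A₂.image ι) (A₃.image ι) (A₄.image ι)
    (h₁.image ι) (h₂.image ι) (h₃.image ι) (h₄.image ι)
  rw [Finset.card_image_of_injective _ hinj, Finset.card_image_of_injective _ hinj,
    Finset.card_image_of_injective _ hinj, Finset.card_image_of_injective _ hinj] at hIc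
  refine ⟨I, hI, hIc, ?_⟩
  intro x
  obtain ⟨b₁, hb₁, b₂, hb₂, b₃, hb₃, b₄, hb₄, c, hc, e⟩ :=
    hIx (((x.val + 2 * N : ℕ)) : ZMod (D q n))
  obtain ⟨a₁, ha₁, rfl⟩ := Finset.mem_image.1 hb₁
  obtain ⟨a₂, ha₂, rfl⟩ := Finset.mem_image.1 hb₂
  obtain ⟨a₃, ha₃, rfl⟩ := Finset.mem_image.1 hb₃
  obtain ⟨a₄, ha₄, rfl⟩ := Finset.mem_image.1 hb₄
  refine ⟨a₁, ha₁, a₂, ha₂, a₃, ha₃, a₄, ha₄, c, hc, ?_⟩
  set s : ℕ := ∑ i ∈ I, c i * D q i with hs
  have hsD : s < D q n := digit_sum_lt q hq n I c hI hc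
  have v₀ := ZMod.val_lt x
  have v₁ := ZMod.val_lt a₁
  have v₂ := ZMod.val_lt a₂
  have v₃ := ZMod.val_lt a₃
  have v₄ := ZMod.val_lt a₄
  have e1 : (((x.val + 2 * N + a₃.val + a₄.val : ℕ)) : ZMod (D q n))
      = ((s + a₁.val + a₂.val : ℕ) : ZMod (D q n)) := by
    rw [hι] at e
    push_cast at e ⊢
    rw [e]; ring
  have e2 : ((D q n : ℤ)) ∣ ((x.val + 2 * N + a₃.val + a₄.val : ℕ) : ℤ)
      - ((s + a₁.val + a₂.val : ℕ) : ℤ) := by
    rw [← ZMod.intCast_zmod_eq_zero_iff_dvd]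
    push_cast
    push_cast at e1
    rw [e1]; ring
  have e3 : ((x.val + 2 * N + a₃.val + a₄.val : ℕ) : ℤ)
      - ((s + a₁.val + a₂.val : ℕ) : ℤ) = 0 := by
    apply Int.eq_zero_of_abs_lt_dvd e2
    rw [abs_lt]
    push_cast
    constructor <;> omega
  have e4 : x.val + 2 * N + a₃.val + a₄.val = s + a₁.val + a₂.val := by
    have := sub_eq_zero.1 e3
    exact_mod_cast this
  have e5 : ((x.val + 2 * N + a₃.val + a₄.val : ℕ) : ZMod N)
      = ((s + a₁.val + a₂.val : ℕ) : ZMod N) := by rw [e4]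
  push_cast at e5
  rw [ZMod.natCast_zmod_val, ZMod.natCast_zmod_val, ZMod.natCast_zmod_val,
    ZMod.natCast_zmod_val, ZMod.natCast_zmod_val, ZMod.natCast_self, mul_zero, add_zero] at e5
  linear_combination e5

lemma log_kappa : (80 : ℝ) / 33 ≤ Real.log (1 / 0.0874) := by
  have h1 : (80 : ℝ) ≤ 33 * Real.log (1 / 0.0874) := by
    have e1 : 33 * Real.log (1 / 0.0874) = Real.log ((1 / 0.0874) ^ 33) := by
      rw [Real.log_pow]; norm_num
    rw [e1, Real.le_log_iff_exp_le (by positivity)]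
    have e2 : Real.exp 80 = Real.exp 1 ^ 80 := by rw [← Real.exp_nat_mul]; norm_num
    rw [e2]
    have e3 : Real.exp 1 ≤ 2.72 := by
      have := Real.exp_one_lt_d9
      linarith
    calc Real.exp 1 ^ 80 ≤ 2.72 ^ 80 := pow_le_pow_left₀ (Real.exp_pos _).le e3 80
      _ ≤ (1 / 0.0874) ^ 33 := by norm_num
  linarith

end Pool.Agent.H18.UC
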