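import Mathlib

/-! One step of the induction: passing from a finite abelian group to a quotient. -/

set_option autoImplicit false

open Finset

set_option linter.unusedSectionVars false

namespace Pool.Agent.H18.UC

lemma kappa (M : ℝ) (h1 : M ≤ 1) (h : M < ((1 + M) / 2) ^ 4) : M < 0.0874 := by
  by_contra hM
  push Not at hM
  have h2 : 0 < (M - 1) * (M ^ 3 + 5 * M ^ 2 + 11 * M - 1) := by
    have e : (M - 1) * (M ^ 3 + 5 * M ^ 2 + 11 * M - 1) = 16 * (((1 + M) / 2) ^ 4 - M) := by ring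
    rw [e]; linarith
  have h3 : 0 ≤ M ^ 3 + 5 * M ^ 2 + 11 * M - 1 := by
    have e1 : (0.0874 : ℝ) ^ 3 ≤ M ^ 3 := pow_le_pow_left₀ (by norm_num) hM 3
    have e2 : (0.0874 : ℝ) ^ 2 ≤ M ^ 2 := pow_le_pow_left₀ (by norm_num) hM 2
    norm_num at e1 e2 hM ⊢
    linarith
  have h4 : (M - 1) * (M ^ 3 + 5 * M ^ 2 + 11 * M - 1) ≤ 0 :=
    mul_nonpos_of_nonpos_of_nonneg (by linarith) h3
  linarith

/-- Two sequences in `[0, 1]` with small products have small averages. -/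
lemma pair_bound (q : ℕ) (hq : 0 < q) (a b : ℕ → ℝ) (M : ℝ)
    (ha : ∀ t, a t ≤ 1) (hb : ∀ t, b t ≤ 1)
    (hab : ∀ t ∈ Icc 1 q, a t * b t < M) :
    ∑ t ∈ Icc 1 q, a t + ∑ t ∈ Icc 1 q, b t < q * (1 + M) := by
  rw [← Finset.sum_add_distrib]
  have h1 : (q : ℝ) * (1 + M) = ∑ _t ∈ Icc 1 q, (1 + M) := by
    rw [Finset.sum_const, Nat.card_Icc, nsmul_eq_mul]; simp
  rw [h1]
  refine Finset.sum_lt_sum_of_nonempty ⟨1, by rw [Finset.mem_Icc]; omega⟩ fun t ht => ?_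
  have h2 := hab t ht
  have h3 := ha t
  have h4 := hb t
  nlinarith [mul_nonneg (sub_nonneg.2 h3) (sub_nonneg.2 h4)]

section

variable {G G' : Type*} [AddCommGroup G] [Fintype G] [DecidableEq G] [AddCommGroup G']
  [Fintype G'] [DecidableEq G']

/-- Fibre of `A` over `y`. -/
def fib (π : G →+ G') (A : Finset G) (y : G') : Finset G := A.filter (fun a => π a = y)

lemma mem_fib (π : G →+ G') (A : Finset G) (y : G') (a : G) :
    a ∈ fib π A y ↔ a ∈ A ∧ π a = y := by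
  unfold fib; rw [Finset.mem_filter]

/-- Common size of the full fibres. -/
def fq (π : G →+ G') : ℕ := (fib π Finset.univ 0).card

lemma card_full (π : G →+ G') (hπ : Function.Surjective π) (y : G') :
    (fib π Finset.univ y).card = fq π := by
  obtain ⟨g, hg⟩ := hπ y
  unfold fq
  refine Finset.card_bij (fun a _ => a - g) ?_ ?_ ?_
  · intro a ha
    rw [mem_fib] at ha ⊢
    exact ⟨Finset.mem_univ _, by rw [map_sub, ha.2, hg, sub_self]⟩
  · intro a _ b _ h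
    exact sub_left_injective h
  · intro b hb
    rw [mem_fib] at hb
    exact ⟨b + g, by rw [mem_fib]; exact ⟨Finset.mem_univ _, by rw [map_add, hb.2, hg, zero_add]⟩,
      by abel⟩

lemma sum_fib (π : G →+ G') (A : Finset G) : ∑ y, (fib π A y).card = A.card := by
  unfold fib
  exact (Finset.card_eq_sum_card_fiberwise (fun _ _ => Finset.mem_univ _)).symm

lemma card_eq (π : G →+ G') (hπ : Function.Surjective π) :
    Fintype.card G = fq π * Fintype.card G' := by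
  have h := sum_fib π (Finset.univ : Finset G)
  rw [Finset.card_univ] at h
  rw [← h, Finset.sum_congr rfl (fun y _ => card_full π hπ y), Finset.sum_const,
    Finset.card_univ, smul_eq_mul, mul_comm]

lemma fib_le (π : G →+ G') (hπ : Function.Surjective π) (A : Finset G) (y : G') :
    (fib π A y).card ≤ fq π := by
  rw [← card_full π hπ y]
  exact Finset.card_le_card (Finset.filter_subset_filter _ (Finset.subset_univ _))

/-- Level set. -/
def lev (π : G →+ G') (A : Finset G) (t : ℕ) : Finset G' :=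
  Finset.univ.filter (fun y => t ≤ (fib π A y).card)

lemma mem_lev (π : G →+ G') (A : Finset G) (t : ℕ) (y : G') :
    y ∈ lev π A t ↔ t ≤ (fib π A y).card := by
  unfold lev; simp

lemma sum_lev (π : G →+ G') (hπ : Function.Surjective π) (A : Finset G) :
    ∑ t ∈ Icc 1 (fq π), (lev π A t).card = A.card := by
  rw [← sum_fib π A]
  unfold lev
  simp_rw [Finset.card_filter]
  rw [Finset.sum_comm]
  refine Finset.sum_congr rfl fun y _ => ?_
  rw [← Finset.card_filter]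
  have h1 := fib_le π hπ A y
  have h2 : (Icc 1 (fq π)).filter (fun t => t ≤ (fib π A y).card) = Icc 1 (fib π A y).card := by
    ext t
    rw [Finset.mem_filter, Finset.mem_Icc, Finset.mem_Icc]
    omega
  rw [h2, Nat.card_Icc]
  omega

lemma lev_antitone (π : G →+ G') (A : Finset G) (s t : ℕ) (h : s ≤ t) :
    lev π A t ⊆ lev π A s := by
  intro y hy
  rw [mem_lev] at hy ⊢
  omega

lemma lev_one (π : G →+ G') (A : Finset G) (y : G') : y ∈ lev π A 1 ↔ ∃ a ∈ A, π a = y := by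
  rw [mem_lev, Nat.one_le_iff_ne_zero, ← Nat.pos_iff_ne_zero, Finset.card_pos]
  constructor
  · rintro ⟨a, ha⟩
    exact ⟨a, ((mem_fib _ _ _ _).1 ha).1, ((mem_fib _ _ _ _).1 ha).2⟩
  · rintro ⟨a, ha, h⟩
    exact ⟨a, (mem_fib _ _ _ _).2 ⟨ha, h⟩⟩

lemma lev_one_nonempty (π : G →+ G') (A : Finset G) (hA : A.Nonempty) : (lev π A 1).Nonempty := by
  obtain ⟨a, ha⟩ := hA
  exact ⟨π a, (lev_one _ _ _).2 ⟨a, ha, rfl⟩⟩

/-- The sum of two large fibres is a full fibre. -/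
lemma fib_add (π : G →+ G') (hπ : Function.Surjective π) (A B : Finset G) (t : ℕ)
    (ht : t ∈ Icc 1 (fq π)) (y z : G') (hy : y ∈ lev π A t) (hz : z ∈ lev π B (fq π + 1 - t))
    (x : G) (hx : π x = y + z) : ∃ a ∈ A, ∃ b ∈ B, x = a + b := by
  rw [mem_lev] at hy hz
  rw [Finset.mem_Icc] at ht
  set F := fib π Finset.univ y with hF
  have hFc : F.card = fq π := card_full π hπ y
  have h1 : fib π A y ⊆ F := Finset.filter_subset_filter _ (Finset.subset_univ _)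
  have h2 : (fib π B z).image (fun b => x - b) ⊆ F := by
    intro w hw
    obtain ⟨b, hb, rfl⟩ := Finset.mem_image.1 hw
    rw [mem_fib] at hb
    rw [hF, mem_fib]
    exact ⟨Finset.mem_univ _, by rw [map_sub, hx, hb.2, add_sub_cancel_right]⟩
  have h3 : ((fib π B z).image (fun b => x - b)).card = (fib π B z).card :=
    Finset.card_image_of_injective _ sub_right_injective
  have h4 : ¬ Disjoint (fib π A y) ((fib π B z).image (fun b => x - b)) := by
    intro hd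
    have h5 := Finset.card_le_card (Finset.union_subset h1 h2)
    rw [Finset.card_union_of_disjoint hd, h3, hFc] at h5
    omega
  obtain ⟨w, hw1, hw2⟩ := Finset.not_disjoint_iff.1 h4
  obtain ⟨b, hb, hwb⟩ := Finset.mem_image.1 hw2
  refine ⟨w, ((mem_fib _ _ _ _).1 hw1).1, b, ((mem_fib _ _ _ _).1 hb).1, ?_⟩
  rw [← hwb]; abel

/-- Density-type ratio of a set to its support. -/
lemma ratio_sum (π : G →+ G') (hπ : Function.Surjective π) (A : Finset G) :
    ∑ t ∈ Icc 1 (fq π), ((lev π A t).card : ℝ) / ((lev π A 1).card : ℝ)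
      = (A.card : ℝ) / ((lev π A 1).card : ℝ) := by
  rw [← Finset.sum_div, ← sum_lev π hπ A]
  push_cast
  rfl

lemma ratio_sum' (π : G →+ G') (hπ : Function.Surjective π) (A : Finset G) :
    ∑ t ∈ Icc 1 (fq π), ((lev π A (fq π + 1 - t)).card : ℝ) / ((lev π A 1).card : ℝ)
      = (A.card : ℝ) / ((lev π A 1).card : ℝ) := by
  rw [← ratio_sum π hπ A]
  refine Finset.sum_bij' (fun t _ => fq π + 1 - t) (fun t _ => fq π + 1 - t) ?_ ?_ ?_ ?_ ?_
  · intro t ht; rw [Finset.mem_Icc] at ht ⊢; omega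
  · intro t ht; rw [Finset.mem_Icc] at ht ⊢; omega
  · intro t ht; rw [Finset.mem_Icc] at ht; omega
  · intro t ht; rw [Finset.mem_Icc] at ht; omega
  · intro t ht; rfl

/-- If the level sets of a pair have small products then the mean fibre densities are small. -/
lemma pair_small (π : G →+ G') (hπ : Function.Surjective π) (A B : Finset G)
    (hA : A.Nonempty) (hB : B.Nonempty) (M : ℝ)
    (h : ∀ t ∈ Icc 1 (fq π), ((lev π A t).card : ℝ) * ((lev π B (fq π + 1 - t)).card : ℝ)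
      < M * (((lev π A 1).card : ℝ) * ((lev π B 1).card : ℝ))) :
    (A.card : ℝ) / (fq π * (lev π A 1).card) * ((B.card : ℝ) / (fq π * (lev π B 1).card))
      < ((1 + M) / 2) ^ 2 := by
  have hA1 : (0 : ℝ) < (lev π A 1).card := by
    exact_mod_cast (lev_one_nonempty π A hA).card_pos
  have hB1 : (0 : ℝ) < (lev π B 1).card := by
    exact_mod_cast (lev_one_nonempty π B hB).card_pos
  have hq0 : 0 < fq π := by
    unfold fq
    refine Finset.card_pos.2 ⟨0, ?_⟩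
    rw [mem_fib]; exact ⟨Finset.mem_univ _, map_zero _⟩
  have hq : (0 : ℝ) < fq π := by exact_mod_cast hq0
  have h1 := pair_bound (fq π) hq0
    (fun t => if 1 ≤ t then ((lev π A t).card : ℝ) / ((lev π A 1).card : ℝ) else 0)
    (fun t => if t ≤ fq π then
      ((lev π B (fq π + 1 - t)).card : ℝ) / ((lev π B 1).card : ℝ) else 0) M
    (by
      intro t
      split_ifs with ht
      · rw [div_le_one hA1]
        exact_mod_cast Finset.card_le_card (lev_antitone π A 1 t ht)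
      · exact zero_le_one)
    (by
      intro t
      split_ifs with ht
      · rw [div_le_one hB1]
        exact_mod_cast Finset.card_le_card (lev_antitone π B 1 _ (by omega))
      · exact zero_le_one)
    (by
      intro t ht
      have ht' := Finset.mem_Icc.1 ht
      rw [if_pos ht'.1, if_pos ht'.2, div_mul_div_comm, div_lt_iff₀ (by positivity)]
      exact h t ht)
  have e1 : ∑ t ∈ Icc 1 (fq π),
      (if 1 ≤ t then ((lev π A t).card : ℝ) / ((lev π A 1).card : ℝ) else 0)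
      = (A.card : ℝ) / ((lev π A 1).card : ℝ) := by
    rw [← ratio_sum π hπ A]
    refine Finset.sum_congr rfl fun t ht => ?_
    rw [if_pos (Finset.mem_Icc.1 ht).1]
  have e2 : ∑ t ∈ Icc 1 (fq π), (if t ≤ fq π then
      ((lev π B (fq π + 1 - t)).card : ℝ) / ((lev π B 1).card : ℝ) else 0)
      = (B.card : ℝ) / ((lev π B 1).card : ℝ) := by
    rw [← ratio_sum' π hπ B]
    refine Finset.sum_congr rfl fun t ht => ?_
    rw [if_pos (Finset.mem_Icc.1 ht).2]
  rw [e1, e2] at h1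
  set m₁ := (A.card : ℝ) / (fq π * (lev π A 1).card) with hm₁
  set m₂ := (B.card : ℝ) / (fq π * (lev π B 1).card) with hm₂
  have f1 : (A.card : ℝ) / ((lev π A 1).card : ℝ) = fq π * m₁ := by rw [hm₁]; field_simp
  have f2 : (B.card : ℝ) / ((lev π B 1).card : ℝ) = fq π * m₂ := by rw [hm₂]; field_simp
  rw [f1, f2, ← mul_add] at h1
  have h2 : m₁ + m₂ < 1 + M := lt_of_mul_lt_mul_left h1 hq.le
  have h3 : 0 ≤ m₁ := by positivity
  have h4 : 0 ≤ m₂ := by positivity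
  have h5 : ((m₁ + m₂) / 2) ^ 2 < ((1 + M) / 2) ^ 2 :=
    pow_lt_pow_left₀ (by linarith) (by linarith) (by norm_num)
  nlinarith [sq_nonneg (m₁ - m₂)]

lemma card_le_lev (π : G →+ G') (hπ : Function.Surjective π) (A : Finset G) :
    A.card ≤ fq π * (lev π A 1).card := by
  rw [← sum_lev π hπ A]
  calc ∑ t ∈ Icc 1 (fq π), (lev π A t).card ≤ ∑ _t ∈ Icc 1 (fq π), (lev π A 1).card := by
        refine Finset.sum_le_sum fun t ht => ?_
        exact Finset.card_le_card (lev_antitone π A 1 t (Finset.mem_Icc.1 ht).1)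
    _ = fq π * (lev π A 1).card := by
        rw [Finset.sum_const, Nat.card_Icc, smul_eq_mul]; simp

/-- One step: either the fibres can be filled without loss of density, or the projection gains
a constant factor. -/
theorem step (π : G →+ G') (hπ : Function.Surjective π) (A₁ A₂ A₃ A₄ : Finset G)
    (h₁ : A₁.Nonempty) (h₂ : A₂.Nonempty) (h₃ : A₃.Nonempty) (h₄ : A₄.Nonempty) :
    ∃ B₁ B₂ B₃ B₄ : Finset G', B₁.Nonempty ∧ B₂.Nonempty ∧ B₃.Nonempty ∧ B₄.Nonempty ∧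
      (((A₁.card : ℝ) * A₂.card * (A₃.card * A₄.card)
          ≤ ((B₁.card : ℝ) * B₂.card * (B₃.card * B₄.card)) * (fq π : ℝ) ^ 4 ∧
        ∀ x : G, ∀ b₁ ∈ B₁, ∀ b₂ ∈ B₂, ∀ b₃ ∈ B₃, ∀ b₄ ∈ B₄, π x = b₁ + b₂ - b₃ - b₄ →
          ∃ a₁ ∈ A₁, ∃ a₂ ∈ A₂, ∃ a₃ ∈ A₃, ∃ a₄ ∈ A₄, x = a₁ + a₂ - a₃ - a₄) ∨
      ((A₁.card : ℝ) * A₂.card * (A₃.card * A₄.card)
          ≤ 0.0874 * (((B₁.card : ℝ) * B₂.card * (B₃.card * B₄.card)) * (fq π : ℝ) ^ 4) ∧
        ∀ b₁ ∈ B₁, ∀ b₂ ∈ B₂, ∀ b₃ ∈ B₃, ∀ b₄ ∈ B₄,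
          ∃ a₁ ∈ A₁, ∃ a₂ ∈ A₂, ∃ a₃ ∈ A₃, ∃ a₄ ∈ A₄,
            π (a₁ + a₂ - a₃ - a₄) = b₁ + b₂ - b₃ - b₄)) := by
  have hq0 : 0 < fq π := by
    unfold fq
    refine Finset.card_pos.2 ⟨0, ?_⟩
    rw [mem_fib]; exact ⟨Finset.mem_univ _, map_zero _⟩
  have hq : (0 : ℝ) < fq π := by exact_mod_cast hq0
  have n₁ := lev_one_nonempty π A₁ h₁
  have n₂ := lev_one_nonempty π A₂ h₂
  have n₃ := lev_one_nonempty π A₃ h₃
  have n₄ := lev_one_nonempty π A₄ h₄
  have s₁ : (0 : ℝ) < (lev π A₁ 1).card := by exact_mod_cast n₁.card_pos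
  have s₂ : (0 : ℝ) < (lev π A₂ 1).card := by exact_mod_cast n₂.card_pos
  have s₃ : (0 : ℝ) < (lev π A₃ 1).card := by exact_mod_cast n₃.card_pos
  have s₄ : (0 : ℝ) < (lev π A₄ 1).card := by exact_mod_cast n₄.card_pos
  have c₁ : (0 : ℝ) < A₁.card := by exact_mod_cast h₁.card_pos
  have c₂ : (0 : ℝ) < A₂.card := by exact_mod_cast h₂.card_pos
  have c₃ : (0 : ℝ) < A₃.card := by exact_mod_cast h₃.card_pos
  have c₄ : (0 : ℝ) < A₄.card := by exact_mod_cast h₄.card_pos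
  have l : ∀ A : Finset G, (A.card : ℝ) ≤ fq π * (lev π A 1).card := by
    intro A; exact_mod_cast card_le_lev π hπ A
  set m₁ : ℝ := (A₁.card : ℝ) / (fq π * (lev π A₁ 1).card) with hm₁
  set m₂ : ℝ := (A₂.card : ℝ) / (fq π * (lev π A₂ 1).card) with hm₂
  set m₃ : ℝ := (A₃.card : ℝ) / (fq π * (lev π A₃ 1).card) with hm₃
  set m₄ : ℝ := (A₄.card : ℝ) / (fq π * (lev π A₄ 1).card) with hm₄
  have p₁ : 0 < m₁ := by positivity
  have p₂ : 0 < m₂ := by positivity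
  have p₃ : 0 < m₃ := by positivity
  have p₄ : 0 < m₄ := by positivity
  have u₁ : m₁ ≤ 1 := div_le_one_of_le₀ (l A₁) (by positivity)
  have u₂ : m₂ ≤ 1 := div_le_one_of_le₀ (l A₂) (by positivity)
  have u₃ : m₃ ≤ 1 := div_le_one_of_le₀ (l A₃) (by positivity)
  have u₄ : m₄ ≤ 1 := div_le_one_of_le₀ (l A₄) (by positivity)
  set M : ℝ := m₁ * m₂ * (m₃ * m₄) with hM
  have hM0 : 0 < M := by positivity
  have hM1 : M ≤ 1 := by
    have e1 : m₁ * m₂ ≤ 1 := mul_le_one₀ u₁ p₂.le u₂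
    have e2 : m₃ * m₄ ≤ 1 := mul_le_one₀ u₃ p₄.le u₄
    exact mul_le_one₀ e1 (by positivity) e2
  have hprod : (A₁.card : ℝ) * A₂.card * (A₃.card * A₄.card)
      = M * (((lev π A₁ 1).card : ℝ) * (lev π A₂ 1).card
        * ((lev π A₃ 1).card * (lev π A₄ 1).card)) * (fq π : ℝ) ^ 4 := by
    rw [hM, hm₁, hm₂, hm₃, hm₄]
    field_simp
  by_cases hc1 : ∃ t ∈ Icc 1 (fq π), M * (((lev π A₁ 1).card : ℝ) * ((lev π A₂ 1).card : ℝ))
      ≤ ((lev π A₁ t).card : ℝ) * ((lev π A₂ (fq π + 1 - t)).card : ℝ)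
  · obtain ⟨t, ht, hle⟩ := hc1
    have hpos : 0 < ((lev π A₁ t).card : ℝ) * ((lev π A₂ (fq π + 1 - t)).card : ℝ) :=
      lt_of_lt_of_le (by positivity) hle
    refine ⟨lev π A₁ t, lev π A₂ (fq π + 1 - t), lev π A₃ 1, lev π A₄ 1, ?_, ?_, n₃, n₄,
      Or.inl ⟨?_, ?_⟩⟩
    · rw [← Finset.card_pos]
      rcases Nat.eq_zero_or_pos (lev π A₁ t).card with h | h
      · rw [h] at hpos; simp at hpos
      · exact h
    · rw [← Finset.card_pos]
      rcases Nat.eq_zero_or_pos (lev π A₂ (fq π + 1 - t)).card with h | h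
      · rw [h] at hpos; simp at hpos
      · exact h
    · rw [hprod]
      refine mul_le_mul_of_nonneg_right ?_ (by positivity)
      calc M * (((lev π A₁ 1).card : ℝ) * (lev π A₂ 1).card
            * ((lev π A₃ 1).card * (lev π A₄ 1).card))
          = M * (((lev π A₁ 1).card : ℝ) * (lev π A₂ 1).card)
            * ((lev π A₃ 1).card * (lev π A₄ 1).card) := by ring
        _ ≤ _ := mul_le_mul_of_nonneg_right hle (by positivity)
    · intro x b₁ hb₁ b₂ hb₂ b₃ hb₃ b₄ hb₄ hx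
      obtain ⟨a₃, ha₃, e₃⟩ := (lev_one _ _ _).1 hb₃
      obtain ⟨a₄, ha₄, e₄⟩ := (lev_one _ _ _).1 hb₄
      obtain ⟨a₁, ha₁, a₂, ha₂, e⟩ := fib_add π hπ A₁ A₂ t ht b₁ b₂ hb₁ hb₂ (x + a₃ + a₄) (by
        rw [map_add, map_add, hx, e₃, e₄]; abel)
      exact ⟨a₁, ha₁, a₂, ha₂, a₃, ha₃, a₄, ha₄, by rw [← e]; abel⟩
  by_cases hc2 : ∃ t ∈ Icc 1 (fq π), M * (((lev π A₃ 1).card : ℝ) * ((lev π A₄ 1).card : ℝ))
      ≤ ((lev π A₃ t).card : ℝ) * ((lev π A₄ (fq π + 1 - t)).card : ℝ)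
  · obtain ⟨t, ht, hle⟩ := hc2
    have hpos : 0 < ((lev π A₃ t).card : ℝ) * ((lev π A₄ (fq π + 1 - t)).card : ℝ) :=
      lt_of_lt_of_le (by positivity) hle
    refine ⟨lev π A₁ 1, lev π A₂ 1, lev π A₃ t, lev π A₄ (fq π + 1 - t), n₁, n₂, ?_, ?_,
      Or.inl ⟨?_, ?_⟩⟩
    · rw [← Finset.card_pos]
      rcases Nat.eq_zero_or_pos (lev π A₃ t).card with h | h
      · rw [h] at hpos; simp at hpos
      · exact h
    · rw [← Finset.card_pos]
      rcases Nat.eq_zero_or_pos (lev π A₄ (fq π + 1 - t)).card with h | h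
      · rw [h] at hpos; simp at hpos
      · exact h
    · rw [hprod]
      refine mul_le_mul_of_nonneg_right ?_ (by positivity)
      calc M * (((lev π A₁ 1).card : ℝ) * (lev π A₂ 1).card
            * ((lev π A₃ 1).card * (lev π A₄ 1).card))
          = ((lev π A₁ 1).card : ℝ) * (lev π A₂ 1).card
            * (M * (((lev π A₃ 1).card : ℝ) * (lev π A₄ 1).card)) := by ring
        _ ≤ _ := mul_le_mul_of_nonneg_left hle (by positivity)
    · intro x b₁ hb₁ b₂ hb₂ b₃ hb₃ b₄ hb₄ hx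
      obtain ⟨a₁, ha₁, e₁⟩ := (lev_one _ _ _).1 hb₁
      obtain ⟨a₂, ha₂, e₂⟩ := (lev_one _ _ _).1 hb₂
      obtain ⟨a₃, ha₃, a₄, ha₄, e⟩ := fib_add π hπ A₃ A₄ t ht b₃ b₄ hb₃ hb₄ (a₁ + a₂ - x) (by
        rw [map_sub, map_add, hx, e₁, e₂]; abel)
      refine ⟨a₁, ha₁, a₂, ha₂, a₃, ha₃, a₄, ha₄, ?_⟩
      have : a₁ + a₂ - a₃ - a₄ = a₁ + a₂ - (a₃ + a₄) := by abel
      rw [this, ← e]; abel
  push Not at hc1 hc2
  have k1 := pair_small π hπ A₁ A₂ h₁ h₂ M hc1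
  have k2 := pair_small π hπ A₃ A₄ h₃ h₄ M hc2
  have k3 : M < ((1 + M) / 2) ^ 4 := by
    calc M = m₁ * m₂ * (m₃ * m₄) := hM
      _ < ((1 + M) / 2) ^ 2 * ((1 + M) / 2) ^ 2 := by
          exact mul_lt_mul'' k1 k2 (by positivity) (by positivity)
      _ = ((1 + M) / 2) ^ 4 := by ring
  have k4 := kappa M hM1 k3
  refine ⟨lev π A₁ 1, lev π A₂ 1, lev π A₃ 1, lev π A₄ 1, n₁, n₂, n₃, n₄, Or.inr ⟨?_, ?_⟩⟩
  · rw [hprod]
    have e : M * (((lev π A₁ 1).card : ℝ) * (lev π A₂ 1).card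
        * ((lev π A₃ 1).card * (lev π A₄ 1).card)) * (fq π : ℝ) ^ 4
        = M * (((lev π A₁ 1).card : ℝ) * (lev π A₂ 1).card
        * ((lev π A₃ 1).card * (lev π A₄ 1).card) * (fq π : ℝ) ^ 4) := by ring
    rw [e]
    exact mul_le_mul_of_nonneg_right k4.le (by positivity)
  · intro b₁ hb₁ b₂ hb₂ b₃ hb₃ b₄ hb₄
    obtain ⟨a₁, ha₁, e₁⟩ := (lev_one _ _ _).1 hb₁
    obtain ⟨a₂, ha₂, e₂⟩ := (lev_one _ _ _).1 hb₂
    obtain ⟨a₃, ha₃, e₃⟩ := (lev_one _ _ _).1 hb₃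
    obtain ⟨a₄, ha₄, e₄⟩ := (lev_one _ _ _).1 hb₄
    exact ⟨a₁, ha₁, a₂, ha₂, a₃, ha₃, a₄, ha₄, by
      rw [map_sub, map_sub, map_add, e₁, e₂, e₃, e₄]⟩

end

end Pool.Agent.H18.UC
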