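import Pool.Agent.H18.UC.Chain

/-! The theorem for the decomposition of `Z_N` into its primary components. -/

set_option autoImplicit false

open Finset

namespace Pool.Agent.H18.UC

theorem unitary (N : ℕ) (hN : 0 < N) :
    ∀ A₁ A₂ A₃ A₄ : Finset (ZMod N),
      A₁.Nonempty → A₂.Nonempty → A₃.Nonempty → A₄.Nonempty →
      ∃ d : ℕ, d ∣ N ∧ Nat.Coprime d (N / d) ∧
        (A₁.card : ℝ) * A₂.card * (A₃.card * A₄.card)
          ≤ 0.0874 ^ d.primeFactors.card * (N : ℝ) ^ 4 ∧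
        ∀ x : ZMod N, ∃ a₁ ∈ A₁, ∃ a₂ ∈ A₂, ∃ a₃ ∈ A₃, ∃ a₄ ∈ A₄, ∃ y : ZMod N,
          x = a₁ + a₂ - a₃ - a₄ + ((N / d : ℕ) : ZMod N) * y := by
  induction N using Nat.strong_induction_on with
  | _ N ih =>
  intro A₁ A₂ A₃ A₄ h₁ h₂ h₃ h₄
  rcases Nat.lt_or_ge 1 N with hN1 | hN1
  swap
  · have hN' : N = 1 := by omega
    subst hN'
    have hc : ∀ A : Finset (ZMod 1), A.Nonempty → (A.card : ℝ) = 1 := by
      intro A hA
      have h1 : A.card ≤ 1 := Finset.card_le_one_iff_subsingleton_coe.2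
        ⟨fun a b => Subtype.ext (Subsingleton.elim _ _)⟩
      have h2 := hA.card_pos
      have : A.card = 1 := by omega
      rw [this]; norm_num
    obtain ⟨a₁, ha₁⟩ := h₁
    obtain ⟨a₂, ha₂⟩ := h₂
    obtain ⟨a₃, ha₃⟩ := h₃
    obtain ⟨a₄, ha₄⟩ := h₄
    refine ⟨1, dvd_rfl, by simp, ?_, ?_⟩
    · rw [hc A₁ ⟨a₁, ha₁⟩, hc A₂ ⟨a₂, ha₂⟩, hc A₃ ⟨a₃, ha₃⟩, hc A₄ ⟨a₄, ha₄⟩]
      norm_num
    · intro x
      exact ⟨a₁, ha₁, a₂, ha₂, a₃, ha₃, a₄, ha₄, 0, Subsingleton.elim _ _⟩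
  -- split off a prime power
  set p := N.minFac with hp
  have hpp : p.Prime := Nat.minFac_prime (by omega)
  obtain ⟨k, m, hpm, hNm⟩ := Nat.exists_eq_pow_mul_and_not_dvd hN.ne' p hpp.ne_one
  have hk : k ≠ 0 := by
    rintro rfl
    rw [pow_zero, one_mul] at hNm
    exact hpm (hNm ▸ Nat.minFac_dvd N)
  have hm0 : 0 < m := Nat.pos_of_ne_zero fun h => hpm (h ▸ dvd_zero p)
  have hpk : 1 < p ^ k := Nat.one_lt_pow hk hpp.one_lt
  have hmN : m < N := by rw [hNm]; exact lt_mul_of_one_lt_left hm0 hpk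
  have hdvd : m ∣ N := by rw [hNm]; exact Dvd.intro_left _ rfl
  have hcop : Nat.Coprime (p ^ k) m := (Nat.Prime.coprime_iff_not_dvd hpp).2 hpm |>.pow_left k
  have : NeZero N := ⟨hN.ne'⟩
  have : NeZero m := ⟨hm0.ne'⟩
  set π : ZMod N →+ ZMod m := (ZMod.castHom hdvd (ZMod m)).toAddMonoidHom with hπdef
  have hπs : Function.Surjective π := ZMod.castHom_surjective hdvd
  have hπn : ∀ j : ℕ, π (j : ZMod N) = (j : ZMod m) := fun j =>
    map_natCast (ZMod.castHom hdvd (ZMod m)) j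
  have hπmul : ∀ a b : ZMod N, π (a * b) = π a * π b := fun a b =>
    map_mul (ZMod.castHom hdvd (ZMod m)) a b
  have hfq : fq π = p ^ k := by
    have h1 := card_eq π hπs
    have h2 : Fintype.card (ZMod N) = N := ZMod.card _
    have h3 : Fintype.card (ZMod m) = m := ZMod.card _
    rw [h2, h3] at h1
    have h5 : p ^ k * m = fq π * m := hNm.symm.trans h1
    exact (Nat.eq_of_mul_eq_mul_right hm0 h5).symm
  obtain ⟨B₁, B₂, B₃, B₄, k₁, k₂, k₃, k₄, hcase⟩ := step π hπs A₁ A₂ A₃ A₄ h₁ h₂ h₃ h₄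
  obtain ⟨d, hd, hdc, hIc, hIx⟩ := ih m hmN hm0 B₁ B₂ B₃ B₄ k₁ k₂ k₃ k₄
  have hd0 : 0 < d := Nat.pos_of_dvd_of_pos hd hm0
  have hNN : (N : ℝ) ^ 4 = (m : ℝ) ^ 4 * ((p ^ k : ℕ) : ℝ) ^ 4 := by
    conv_lhs => rw [hNm]
    push_cast; ring
  have hcopd : Nat.Coprime (p ^ k) d := hcop.coprime_dvd_right hd
  rcases hcase with ⟨hle, hx⟩ | ⟨hle, hx⟩
  · have hNd : N / d = p ^ k * (m / d) := by rw [hNm, Nat.mul_div_assoc _ hd]
    refine ⟨d, hd.trans hdvd, ?_, ?_, ?_⟩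
    · rw [hNd]
      exact Nat.Coprime.mul_right hcopd.symm hdc
    · rw [hfq] at hle
      calc (A₁.card : ℝ) * A₂.card * (A₃.card * A₄.card)
          ≤ ((B₁.card : ℝ) * B₂.card * (B₃.card * B₄.card)) * ((p ^ k : ℕ) : ℝ) ^ 4 := hle
        _ ≤ (0.0874 ^ d.primeFactors.card * (m : ℝ) ^ 4) * ((p ^ k : ℕ) : ℝ) ^ 4 := by gcongr
        _ = 0.0874 ^ d.primeFactors.card * (N : ℝ) ^ 4 := by rw [hNN]; ring
    · intro x
      obtain ⟨b₁, hb₁, b₂, hb₂, b₃, hb₃, b₄, hb₄, y, hxy⟩ := hIx (π x)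
      obtain ⟨w, hw⟩ := hπs (((p ^ k : ℕ) : ZMod m)⁻¹ * y)
      have hinv : ((p ^ k : ℕ) : ZMod m) * (((p ^ k : ℕ) : ZMod m)⁻¹ * y) = y := by
        rw [← mul_assoc, ZMod.coe_mul_inv_eq_one _ hcop, one_mul]
      obtain ⟨a₁, ha₁, a₂, ha₂, a₃, ha₃, a₄, ha₄, e⟩ :=
        hx (x - ((N / d : ℕ) : ZMod N) * w) b₁ hb₁ b₂ hb₂ b₃ hb₃ b₄ hb₄ (by
          rw [map_sub, hπmul, hπn, hw, hNd, hxy, Nat.cast_mul,
            mul_comm ((p ^ k : ℕ) : ZMod m), mul_assoc, hinv]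
          abel)
      exact ⟨a₁, ha₁, a₂, ha₂, a₃, ha₃, a₄, ha₄, w, by rw [← e]; abel⟩
  · have hNd : N / (p ^ k * d) = m / d := by
      rw [hNm, Nat.mul_div_mul_left _ _ (by positivity)]
    refine ⟨p ^ k * d, by rw [hNm]; exact Nat.mul_dvd_mul_left _ hd, ?_, ?_, ?_⟩
    · rw [hNd]
      exact Nat.Coprime.mul_left (hcop.coprime_dvd_right (Nat.div_dvd_of_dvd hd)) hdc
    · have hω : (p ^ k * d).primeFactors.card = d.primeFactors.card + 1 := by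
        rw [hcopd.primeFactors_mul, Finset.card_union_of_disjoint hcopd.disjoint_primeFactors,
          Nat.primeFactors_prime_pow hk hpp, Finset.card_singleton, add_comm]
      rw [hfq] at hle
      rw [hω, pow_succ]
      calc (A₁.card : ℝ) * A₂.card * (A₃.card * A₄.card)
          ≤ 0.0874 * (((B₁.card : ℝ) * B₂.card * (B₃.card * B₄.card))
            * ((p ^ k : ℕ) : ℝ) ^ 4) := hle
        _ ≤ 0.0874 * ((0.0874 ^ d.primeFactors.card * (m : ℝ) ^ 4)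
            * ((p ^ k : ℕ) : ℝ) ^ 4) := by gcongr
        _ = 0.0874 ^ d.primeFactors.card * 0.0874 * (N : ℝ) ^ 4 := by rw [hNN]; ring
    · intro x
      obtain ⟨b₁, hb₁, b₂, hb₂, b₃, hb₃, b₄, hb₄, y, hxy⟩ := hIx (π x)
      obtain ⟨w, hw⟩ := hπs y
      obtain ⟨a₁, ha₁, a₂, ha₂, a₃, ha₃, a₄, ha₄, e⟩ := hx b₁ hb₁ b₂ hb₂ b₃ hb₃ b₄ hb₄
      set z : ZMod N := x - ((m / d : ℕ) : ZMod N) * w - (a₁ + a₂ - a₃ - a₄) with hz
      have hπz : π z = 0 := by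
        rw [hz, map_sub, map_sub, e, hπmul, hπn, hw, hxy]; abel
      have hzv : ((z.val : ℕ) : ZMod m) = 0 := by
        rw [← hπn, ZMod.natCast_zmod_val]; exact hπz
      rw [ZMod.natCast_eq_zero_iff] at hzv
      obtain ⟨v, hv⟩ := hzv
      have hmd : m = m / d * d := (Nat.div_mul_cancel hd).symm
      refine ⟨a₁, ha₁, a₂, ha₂, a₃, ha₃, a₄, ha₄, w + ((d * v : ℕ) : ZMod N), ?_⟩
      have h3 : ((m / d : ℕ) : ZMod N) * ((d * v : ℕ) : ZMod N) = z := by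
        rw [← Nat.cast_mul, ← mul_assoc, ← hmd, ← hv, ZMod.natCast_zmod_val]
      rw [hNd, mul_add, h3, hz]; abel

end Pool.Agent.H18.UC
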